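import Pool.Agent.Helper8.DV.Defs
import Pool.Agent.Helper8.DC.Defs

/-!
Comparison with the definitions of `Pool.Agent.Helper8.DC`.
-/

set_option autoImplicit false

open scoped Manifold ContDiff

namespace Pool.Agent.Helper8.DV

open Pool.Agent.Helper8

theorem val_eq (F : Fin 4 → Fin 4 → R3) (u v : Fin 4 → ℝ) : val F u v = DC.val F u v := by
  ext a
  simp only [val, DC.val, Finset.sum_apply, Pi.smul_apply, smul_eq_mul]

theorem cr_eq (a b : R3) : cr a b = crossProduct a b := rfl

theorem curv_eq (A : E4 → Fin 4 → R3) : curv A = DC.curv A := rfl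

theorem posDef_iff (F : Fin 4 → Fin 4 → R3) : PosDef F ↔ DC.PosDef F := by
  unfold PosDef DC.PosDef Definite DC.Definite
  simp only [val_eq]
  rfl

variable {X : Type} [TopologicalSpace X] [ChartedSpace E4 X] [IsManifold (𝓡 4) ∞ X]

/-- The same bundle. -/
@[reducible] noncomputable def Bundle.conv (P : Bundle X) : DC.Bundle X where
  ι := P.ι
  c := P.c
  c_mem := P.c_mem
  cover := P.cover
  A := P.A
  A_smooth := P.A_smooth
  g := P.g
  g_smooth := P.g_smooth
  g_mem := P.g_mem
  g_cocycle := fun i j k y hy => P.g_cocycle i j k y ⟨⟨hy.1, hy.2.1⟩, ⟨hy.1, hy.2.2⟩⟩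
  compat := fun i j y hy m w => by
    ext a
    have h := P.compat i j y hy m w a
    have e : (fun b => ∑ n, pd m (tr (P.c i) (P.c j)) y n * P.A i (tr (P.c i) (P.c j) y) n b) =
        ∑ n, (DC.pd m (fun z => (P.c i) ((P.c j).symm z)) y) n •
          P.A i ((P.c i) ((P.c j).symm y)) n := by
      ext b
      simp only [Finset.sum_apply, Pi.smul_apply, smul_eq_mul]
      rfl
    rw [e] at h
    exact h

theorem Bundle.PositiveDefinite.conv {P : Bundle X} (h : P.PositiveDefinite) :
    P.conv.PositiveDefinite := fun i y hy => (posDef_iff _).1 (h i y hy)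

end Pool.Agent.Helper8.DV
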