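import Mathlib

/-!
`SO(3)`-connections over a closed 4-manifold in local coordinates: definitions.
-/

set_option autoImplicit false

open scoped Manifold ContDiff

namespace Pool.Agent.Helper8.DV

noncomputable section

/-- `ℝ⁴`, the model space of a 4-manifold. -/
abbrev E4 := EuclideanSpace ℝ (Fin 4)

/-- `ℝ³`, identified with the Lie algebra of skew matrices: `a` acts by `w ↦ a × w`. -/
abbrev R3 := Fin 3 → ℝ

/-- The cross product `a × b`. -/
def cr (a b : R3) : R3 :=
  ![a 1 * b 2 - a 2 * b 1, a 2 * b 0 - a 0 * b 2, a 0 * b 1 - a 1 * b 0]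

/-- The `l`-th partial derivative of `f` at `y`. -/
def pd {V : Type} [NormedAddCommGroup V] [NormedSpace ℝ V] (l : Fin 4) (f : E4 → V) (y : E4) : V :=
  fderiv ℝ f y (EuclideanSpace.single l 1)

/-- `f` is smooth on `s`. -/
def Smooth {V : Type} [NormedAddCommGroup V] [NormedSpace ℝ V] (f : E4 → V) (s : Set E4) : Prop :=
  ContDiffOn ℝ ∞ f s

/-- `B ∧ C = wedge B C · dy⁰ ∧ dy¹ ∧ dy² ∧ dy³` for 2-forms `B`, `C` on `ℝ⁴`
(with components `B l m = B(∂_l, ∂_m)`). -/
def wedge (B C : Fin 4 → Fin 4 → ℝ) : ℝ :=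
  B 0 1 * C 2 3 - B 0 2 * C 1 3 + B 0 3 * C 1 2 + B 1 2 * C 0 3 - B 1 3 * C 0 2 + B 2 3 * C 0 1

/-- Value `F(u,v)` of an `ℝ³`-valued 2-form. -/
def val (F : Fin 4 → Fin 4 → R3) (u v : Fin 4 → ℝ) : R3 := fun a => ∑ l, ∑ m, u l * v m * F l m a

/-- The `a`-th component of an `ℝ³`-valued 2-form. -/
def cmp (F : Fin 4 → Fin 4 → R3) (a : Fin 3) : Fin 4 → Fin 4 → ℝ := fun l m => F l m a

/-- The matrix `M` of the curvature: `F_a ∧ F_b = M a b · dy⁰ ∧ dy¹ ∧ dy² ∧ dy³`. -/
def gram (F : Fin 4 → Fin 4 → R3) : Matrix (Fin 3) (Fin 3) ℝ :=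
  fun a b => wedge (cmp F a) (cmp F b)

/-- Curvature `F_lm = ∂_l A_m - ∂_m A_l + A_l × A_m` (so `[∇_l, ∇_m] φ = F_lm × φ`). -/
def curv (A : E4 → Fin 4 → R3) (y : E4) (l m : Fin 4) : R3 := fun a =>
  pd l (fun z => A z m) y a - pd m (fun z => A z l) y a + cr (A y l) (A y m) a

/-- Definite: `F(u,v) ≠ 0` for linearly independent `u`, `v`. -/
def Definite (F : Fin 4 → Fin 4 → R3) : Prop :=
  ∀ u v : Fin 4 → ℝ, LinearIndependent ℝ ![u, v] → val F u v ≠ 0

/-- `F` is definite, the coordinates are oriented by `F` (`F_a ∧ F_a > 0`), and `(F_1, F_2, F_3)`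
is an oriented basis of `Λ⁺`: whenever `u ≠ 0` and `F_1(v,·) = F_2(u,·)` one has `F_3(u,v) > 0`
(indices `0, 1, 2` in Lean). For the round 4-sphere `F_a` is `- (ω_a)`, `ω_a(u,v) = g(J_a u, v)`,
`J_1 J_2 = J_3`, and this holds. -/
def PosDef (F : Fin 4 → Fin 4 → R3) : Prop :=
  Definite F ∧ (∀ a, 0 < gram F a a) ∧
    ∀ u v : Fin 4 → ℝ, u ≠ 0 → (∀ w, val F v w 0 = val F u w 1) → 0 < val F u v 2

/-- Homeomorphisms from an open subset of `X` to an open subset of `ℝ⁴`. -/
abbrev Chart (X : Type) [TopologicalSpace X] := OpenPartialHomeomorph X E4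

/-- The image of `c`, an open subset of `ℝ⁴`. -/
def dom {X : Type} [TopologicalSpace X] (c : Chart X) : Set E4 := c.target

/-- The overlap of the charts `c` and `d`, in the coordinates of `d`. -/
def ov {X : Type} [TopologicalSpace X] (c d : Chart X) : Set E4 := d.target ∩ d.symm ⁻¹' c.source

/-- The change of coordinates from `d` to `c`. -/
def tr {X : Type} [TopologicalSpace X] (c d : Chart X) (y : E4) : E4 := c (d.symm y)

/-- An oriented rank 3 bundle `E` with fibre metric and metric connection over the 4-manifold `X`,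
given by trivialisations over coordinate charts `c i` (from the maximal atlas) that cover `X`:
connection forms `A i` in the coordinates of `c i`, transition functions `g i j` with values in
`SO(3)`, written in the coordinates of `c j`. -/
structure Bundle (X : Type) [TopologicalSpace X] [ChartedSpace E4 X] where
  /-- index set -/
  ι : Type
  /-- coordinate charts -/
  c : ι → Chart X
  c_mem : ∀ i, c i ∈ IsManifold.maximalAtlas (𝓡 4) ∞ X
  cover : ∀ x, ∃ i, x ∈ (c i).source
  /-- connection forms -/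
  A : ι → E4 → Fin 4 → R3
  A_smooth : ∀ i, Smooth (A i) (dom (c i))
  /-- transition functions -/
  g : ι → ι → E4 → Matrix (Fin 3) (Fin 3) ℝ
  g_smooth : ∀ i j a b, Smooth (fun y => g i j y a b) (ov (c i) (c j))
  g_mem : ∀ i j, ∀ y ∈ ov (c i) (c j), g i j y ∈ Matrix.specialOrthogonalGroup (Fin 3) ℝ
  g_cocycle : ∀ i j k, ∀ y ∈ ov (c i) (c k) ∩ ov (c j) (c k),
    g i j (tr (c j) (c k) y) * g j k y = g i k y
  /-- `dg + A_i g = g A_j` -/
  compat : ∀ i j, ∀ y ∈ ov (c i) (c j), ∀ (m : Fin 4) (w : R3) (a : Fin 3),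
    pd m (fun z => (g i j z).mulVec w) y a +
      cr (fun b => ∑ n, pd m (tr (c i) (c j)) y n * A i (tr (c i) (c j) y) n b)
        ((g i j y).mulVec w) a = (g i j y).mulVec (cr (A j y m) w) a

namespace Bundle

variable {X : Type} [TopologicalSpace X] [ChartedSpace E4 X]

/-- The connection is positive definite (and the charts are oriented by it). -/
def PositiveDefinite (P : Bundle X) : Prop :=
  ∀ i, ∀ y ∈ dom (P.c i), PosDef (curv (P.A i) y)

end Bundle

end

end Pool.Agent.Helper8.DV
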