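import Pool.Agent.Helper8.DV.Defs

/-!
Closed 2-forms on a 4-manifold in local coordinates: definitions.
-/

set_option autoImplicit false

open scoped Manifold ContDiff

namespace Pool.Agent.Helper8.DV

variable {X : Type} [TopologicalSpace X] [ChartedSpace E4 X]

/-- `2 tr M² < (tr M)²` everywhere. -/
def Bundle.StrictlyPinched (P : Bundle X) : Prop := ∀ i, ∀ y ∈ dom (P.c i),
  2 * (gram (curv (P.A i) y) * gram (curv (P.A i) y)).trace < (gram (curv (P.A i) y)).trace ^ 2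

/-- A smooth 2-form on `X`, given in the charts of `P`. -/
def IsTwo (P : Bundle X) (η : P.ι → E4 → Fin 4 → Fin 4 → ℝ) : Prop :=
  (∀ i, Smooth (η i) (dom (P.c i))) ∧
  (∀ i, ∀ y ∈ dom (P.c i), ∀ l m, η i y l m = -η i y m l) ∧
  ∀ i j, ∀ y ∈ ov (P.c i) (P.c j), ∀ l m,
    η j y l m = ∑ n, ∑ p, pd l (tr (P.c i) (P.c j)) y n * pd m (tr (P.c i) (P.c j)) y p *
      η i (tr (P.c i) (P.c j) y) n p

/-- A 2-form on an open set of `ℝ⁴` is closed at `y`. -/
def ClosedAt (η : E4 → Fin 4 → Fin 4 → ℝ) (y : E4) : Prop :=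
  ∀ l m n : Fin 4, pd l (fun z => η z m n) y + pd m (fun z => η z n l) y +
    pd n (fun z => η z l m) y = 0

end Pool.Agent.Helper8.DV
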