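import Pool.Agent.Helper8.DV.Defs

/-!
The pinching condition and the 2-form of a section of `E`: definitions.
-/

set_option autoImplicit false

namespace Pool.Agent.Helper8.DV

/-- The pinching condition `2 tr M² ≤ (tr M)²`, i.e. the eigenvalues of `√M` satisfy the
triangle inequality. -/
def Pinched (F : Fin 4 → Fin 4 → R3) : Prop :=
  2 * (gram F * gram F).trace ≤ (gram F).trace ^ 2

/-- `2 tr M² ≤ (tr M)²` everywhere. -/
def Bundle.IsPinched {X : Type} [TopologicalSpace X] [ChartedSpace E4 X] (P : Bundle X) : Prop :=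
  ∀ i, ∀ y ∈ dom (P.c i), Pinched (curv (P.A i) y)

/-- The components of the local 2-form `⟨φ, F⟩ = ∑ φ_a F_a`. -/
noncomputable def form (A : E4 → Fin 4 → R3) (φ : E4 → R3) (y : E4) (l m : Fin 4) : ℝ :=
  ∑ a, φ y a * curv A y l m a

end Pool.Agent.Helper8.DV
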