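import Pool.Agent.Helper8.DV.DefsP

/-!
Square integrable closed 2-forms on coverings of a closed 4-manifold with a definite connection:
definitions.
-/

set_option autoImplicit false

open MeasureTheory

namespace Pool.Agent.Helper8.DV

noncomputable section

variable {X : Type} [TopologicalSpace X] [ChartedSpace E4 X]

/-- A 2-form on an open set of `ℝ⁴` is closed at `y`. -/
def IsClosedAt (η : E4 → Fin 4 → Fin 4 → ℝ) (y : E4) : Prop :=
  ∀ l m n : Fin 4, pd l (fun z => η z m n) y + pd m (fun z => η z n l) y +
    pd n (fun z => η z l m) y = 0

/-- A covering `X' → X` with fibre `S`: over the domain of the chart `c i` it is the product with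
`S`, and over the overlap of the charts `i` and `j` the point `(y, x)` of the trivialisation over
`c j` is the point `(y, σ i j y x)` of the one over `c i`, where the permutations `σ i j` of `S` are
locally constant. -/
structure Cov (P : Bundle X) (S : Type) where
  /-- transition permutations -/
  σ : P.ι → P.ι → E4 → Equiv.Perm S
  σ_const : ∀ i j, ∀ y ∈ ov (P.c i) (P.c j), ∀ᶠ z in nhds y, σ i j z = σ i j y
  σ_cocycle : ∀ i j k, ∀ y ∈ ov (P.c i) (P.c k) ∩ ov (P.c j) (P.c k),
    σ i j (tr (P.c j) (P.c k) y) * σ j k y = σ i k y

/-- A smooth section of the pull-back of `E` to the covering `X'`: `s i x` is its representative on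
the sheet `x` over the chart `c i`. -/
structure Form (P : Bundle X) {S : Type} (C : Cov P S) where
  /-- local representatives -/
  s : P.ι → S → E4 → R3
  smooth : ∀ i x, Smooth (s i x) (dom (P.c i))
  compat : ∀ i j, ∀ y ∈ ov (P.c i) (P.c j), ∀ x,
    s i (C.σ i j y x) (tr (P.c i) (P.c j) y) = (P.g i j y).mulVec (s j x y)

/-- The 2-form `⟨s, F_A⟩` on `X'` (a general section of `Λ⁺` on `X'`, for the pull-back of `A`) is
closed. -/
def Form.Closed {P : Bundle X} {S : Type} {C : Cov P S} (φ : Form P C) : Prop :=
  ∀ i x, ∀ y ∈ dom (P.c i), IsClosedAt (form (P.A i) (φ.s i x)) y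

/-- The section is square integrable over `X'` (with respect to the pull-backs of metrics of `X`):
over every compact subset of the domain of a chart of `X`, the sum over all sheets of the integrals
of the square of its norm is finite. -/
def Form.SquareIntegrable {P : Bundle X} {S : Type} {C : Cov P S} (φ : Form P C) : Prop :=
  ∀ i, ∀ K ⊆ dom (P.c i), IsCompact K → Summable fun x => ∫ y in K, ∑ a, φ.s i x y a ^ 2

end

end Pool.Agent.Helper8.DV
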