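import Pool.Agent.Helper8.DV.Defs

/-!
Critical connections of functionals of the curvature matrix: definitions.
-/

set_option autoImplicit false

open scoped Manifold ContDiff
open MeasureTheory

namespace Pool.Agent.Helper8.DV

noncomputable section

/-- The quadratic form of the matrix `M` (not necessarily symmetric) is positive definite. -/
def PosM (M : Matrix (Fin 3) (Fin 3) ℝ) : Prop :=
  ∀ v : R3, v ≠ 0 → 0 < ∑ a, ∑ b, v a * M a b * v b

/-- The symmetric gradient `∂f/∂M` of a function of matrices. -/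
def grad (f : (Fin 3 → Fin 3 → ℝ) → ℝ) (M : Fin 3 → Fin 3 → ℝ) : Matrix (Fin 3) (Fin 3) ℝ :=
  Matrix.of fun a b =>
    (fderiv ℝ f M (Pi.single a (Pi.single b 1)) + fderiv ℝ f M (Pi.single b (Pi.single a 1))) / 2

/-- The connection forms `A + t a`. -/
def vary (A a : E4 → Fin 4 → R3) (t : ℝ) : E4 → Fin 4 → R3 := fun z m b => A z m b + t * a z m b

/-- `det (tr N · 1 - 2 N) + 24 det N ≥ 0`. -/
def Bound (N : Matrix (Fin 3) (Fin 3) ℝ) : Prop :=
  0 ≤ (N.trace • (1 : Matrix (Fin 3) (Fin 3) ℝ) - (2 : ℝ) • N).det + 24 * N.det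

variable {X : Type} [TopologicalSpace X] [ChartedSpace E4 X]

/-- The Jacobian matrix of the change of coordinates: `jac n m = ∂_m τ_n`. -/
def jac (P : Bundle X) (i j : P.ι) (y : E4) : Matrix (Fin 4) (Fin 4) ℝ :=
  fun n m => pd m (tr (P.c i) (P.c j)) y n

/-- A smooth fibre map `f` from the positive elements of `S²E ⊗ Λ⁴` to `Λ⁴`: in the chart `i`, the
point `M · dy⁰ ∧ dy¹ ∧ dy² ∧ dy³` over `y` goes to `f i y M · dy⁰ ∧ dy¹ ∧ dy² ∧ dy³`. Every smooth
function `f` of positive matrices with `f (g M gᵀ) = f M` for `g` in `SO(3)` and `f (c M) = c f M`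
for `c > 0` is an example. -/
structure Dens (P : Bundle X) where
  /-- local representatives -/
  f : P.ι → E4 → (Fin 3 → Fin 3 → ℝ) → ℝ
  smooth : ∀ i, ContDiffOn ℝ ∞ (fun p : E4 × (Fin 3 → Fin 3 → ℝ) => f i p.1 p.2)
    (dom (P.c i) ×ˢ {M | PosM M})
  compat : ∀ i j, ∀ y ∈ ov (P.c i) (P.c j), ∀ M : Matrix (Fin 3) (Fin 3) ℝ, PosM M →
    f j y M = (jac P i j y).det *
      f i (tr (P.c i) (P.c j) y) ((jac P i j y).det⁻¹ • (P.g i j y * M * (P.g i j y).transpose))

/-- The connection is critical for `∫_X f (M_A)`: the derivative at `t = 0` of the integral of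
`f (M (A + t a))` over the support of `a` is zero, for every smooth `E`-valued 1-form `a` with
compact support in one of the charts. -/
def Critical (P : Bundle X) (f : Dens P) : Prop :=
  ∀ (i : P.ι) (a : E4 → Fin 4 → R3), ContDiff ℝ ∞ a → HasCompactSupport a →
    tsupport a ⊆ dom (P.c i) →
    HasDerivAt (fun t : ℝ => ∫ y in tsupport a, f.f i y (gram (curv (vary (P.A i) a t) y))) 0 0

/-- `ψ = ∂f/∂M` at the curvature matrix, in the trivialisation `i`. -/
def psi (P : Bundle X) (f : Dens P) (i : P.ι) (y : E4) : Matrix (Fin 3) (Fin 3) ℝ :=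
  grad (f.f i y) (gram (curv (P.A i) y))

/-- `ρ = α + β ψ`. -/
def pencil (P : Bundle X) (f : Dens P) (α β : ℝ) (i : P.ι) (y : E4) : Matrix (Fin 3) (Fin 3) ℝ :=
  Matrix.of fun r a => α * (if r = a then 1 else 0) + β * psi P f i y r a

end

end Pool.Agent.Helper8.DV
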