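import Pool.Agent.Helper8.DV.Conv
import Pool.Agent.Helper8.DV.DefsA
import Pool.Agent.Helper8.DA.Main

set_option autoImplicit false

open scoped Manifold ContDiff

namespace Pool.Agent.Helper8.DV

open Pool.Agent.Helper8

variable {X : Type} [TopologicalSpace X] [ChartedSpace E4 X] [IsManifold (𝓡 4) ∞ X]

/-- The same coefficients. -/
@[reducible] noncomputable def Coef.conv {P : Bundle X} {N : ℕ} (L : Coef P N) :
    DA.Coef P.conv N where
  h := L.h
  h_smooth := L.h_smooth
  h_mem := L.h_mem
  h_cocycle := fun i j k y hy => L.h_cocycle i j k y ⟨⟨hy.1, hy.2.1⟩, ⟨hy.1, hy.2.2⟩⟩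
  B := L.B
  B_smooth := L.B_smooth
  B_skew := L.B_skew
  compat := fun i j y hy m r t => by
    have h := L.compat i j y hy m r t
    have e : ((∑ n, (DC.pd m (P.conv.tr i j) y) n • L.B i (P.conv.tr i j y) n) * L.h i j y) r t =
        ∑ n, pd m (tr (P.c i) (P.c j)) y n *
          (L.B i (tr (P.c i) (P.c j) y) n * L.h i j y) r t := by
      rw [Finset.sum_mul, Matrix.sum_apply]
      refine Finset.sum_congr rfl fun n _ => ?_
      rw [Matrix.smul_mul, Matrix.smul_apply, smul_eq_mul]
      rfl
    rw [e]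
    exact h

/-- The same section. -/
@[reducible] noncomputable def Sect.conv {P : Bundle X} {N : ℕ} {L : Coef P N} (φ : Sect P L) :
    DA.Sect P.conv L.conv where
  s := φ.s
  smooth := φ.smooth
  compat := fun i j y hy r => by
    ext a
    have h := φ.compat i j y hy r a
    rw [Finset.sum_apply]
    simp only [Pi.smul_apply, smul_eq_mul]
    exact h

theorem vanish {X : Type} [TopologicalSpace X] [ChartedSpace E4 X] [IsManifold (𝓡 4) ∞ X]
    [T2Space X] [CompactSpace X] (P : Bundle X) (hP : P.PositiveDefinite)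
    (hpin : P.IsPinched) {N : ℕ} (L : Coef P N) (hL : L.AntiSelfDual) (φ : Sect P L)
    (hφ : φ.Closed) : ∀ i, ∀ y ∈ dom (P.c i), φ.s i y = 0 :=
  DA.main P.conv hP.conv hpin L.conv hL φ.conv hφ

end Pool.Agent.Helper8.DV
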