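import Pool.Agent.Helper8.DV.Conv
import Pool.Agent.Helper8.DV.DefsN
import Pool.Agent.Helper8.DC.QS

set_option autoImplicit false

open scoped Manifold ContDiff
open MeasureTheory

namespace Pool.Agent.Helper8.DV

theorem square_nonpos {X : Type} [TopologicalSpace X] [ChartedSpace E4 X] [IsManifold (𝓡 4) ∞ X]
    [T2Space X] [CompactSpace X] (P : Bundle X) (hP : P.PositiveDefinite)
    (hpin : P.StrictlyPinched)
    (η : P.ι → E4 → Fin 4 → Fin 4 → ℝ) (hη : IsTwo P η)
    (hc : ∀ i, ∀ y ∈ dom (P.c i), ClosedAt (η i) y)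
    (f : SmoothPartitionOfUnity P.ι (𝓡 4) X Set.univ)
    (hf : f.IsSubordinate fun i => (P.c i).source) :
    ∑ᶠ i, ∫ y in dom (P.c i), f i ((P.c i).symm y) * wedge (η i y) (η i y) ≤ 0 :=
  DC.square_nonpos_gen P.conv hP.conv hpin η hη hc f hf

end Pool.Agent.Helper8.DV
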