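import Pool.Agent.Helper8.DV.Conv
import Pool.Agent.Helper8.DV.DefsU
import Pool.Agent.Helper8.UC.Main

set_option autoImplicit false

open scoped Manifold ContDiff

namespace Pool.Agent.Helper8.DV

open Pool.Agent.Helper8

variable {X : Type} [TopologicalSpace X] [ChartedSpace E4 X] [IsManifold (𝓡 4) ∞ X]

/-- The same covering. -/
@[reducible] noncomputable def Cov.conv {P : Bundle X} {S : Type} (C : Cov P S) :
    UC.Cov P.conv S where
  σ := C.σ
  σ_const := C.σ_const
  σ_cocycle := fun i j k y hy => C.σ_cocycle i j k y ⟨⟨hy.1, hy.2.1⟩, ⟨hy.1, hy.2.2⟩⟩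

/-- The same section. -/
@[reducible] noncomputable def Form.conv {P : Bundle X} {S : Type} {C : Cov P S} (φ : Form P C) :
    UC.Form P.conv C.conv where
  s := φ.s
  smooth := φ.smooth
  compat := φ.compat

theorem vanishU {X : Type} [TopologicalSpace X] [ChartedSpace E4 X] [IsManifold (𝓡 4) ∞ X]
    [T2Space X] [CompactSpace X] (P : Bundle X) (hP : P.PositiveDefinite)
    (hpin : P.IsPinched) {S : Type} [Countable S] (C : Cov P S) (φ : Form P C)
    (hφ : φ.Closed) (hL : φ.SquareIntegrable) :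
    ∀ i x, ∀ y ∈ dom (P.c i), φ.s i x y = 0 :=
  UC.main P.conv hP.conv hpin C.conv φ.conv hφ hL

end Pool.Agent.Helper8.DV
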