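import Pool.Agent.Helper8.DV.Conv
import Pool.Agent.Helper8.DV.DefsX
import Pool.Agent.Helper8.HX.Defs
import Pool.Agent.Helper8.HX.DefsB
import Pool.Agent.Helper8.HX.Main

set_option autoImplicit false

open scoped Manifold ContDiff

namespace Pool.Agent.Helper8.DV

open Pool.Agent.Helper8

variable {X : Type} [TopologicalSpace X] [ChartedSpace E4 X] [IsManifold (𝓡 4) ∞ X]

/-- The same functional. -/
@[reducible] noncomputable def Dens.conv {P : Bundle X} (f : Dens P) : HX.Dens P.conv where
  f := f.f
  smooth := f.smooth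
  compat := f.compat

theorem vary_eq (A a : E4 → Fin 4 → R3) (t : ℝ) : vary A a t = HX.vary A a t := rfl

theorem crit {X : Type} [TopologicalSpace X] [ChartedSpace E4 X] [IsManifold (𝓡 4) ∞ X]
    [T2Space X] [CompactSpace X] (P : Bundle X) (hP : P.PositiveDefinite) (f : Dens P)
    (hcrit : Critical P f) (α β : ℝ)
    (hpos : ∀ i, ∀ y ∈ dom (P.c i), PosM (pencil P f α β i y))
    (hbound : ∀ i, ∀ y ∈ dom (P.c i),
      Bound (pencil P f α β i y * gram (curv (P.A i) y) * pencil P f α β i y)) :
    ∃ s : X → ℝ, IsLocallyConstant s ∧ ∀ i, ∀ y ∈ dom (P.c i),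
      psi P f i y = s ((P.c i).symm y) • (1 : Matrix (Fin 3) (Fin 3) ℝ) := by
  obtain ⟨s, hs, h⟩ := HX.mainV P.conv hP.conv f.conv hcrit α β hpos fun i y hy => by
    have hs : (Matrix.of (HX.pencil α β (HX.psi P.conv f.conv i y))).transpose =
        Matrix.of (HX.pencil α β (HX.psi P.conv f.conv i y)) := by
      ext a b
      simp only [Matrix.transpose_apply, Matrix.of_apply, HX.pencil, HX.psi, HX.grad]
      by_cases hab : a = b
      · subst hab; rfl
      · have hba : ¬ b = a := fun h => hab h.symm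
        simp only [hab, hba, if_false]
        ring
    have h1 := hbound i y hy
    unfold Pool.Agent.Helper8.DE.WeakPinched
    rw [Pool.Agent.Helper35.HX.gram_tw, hs]
    exact h1
  refine ⟨s, hs, fun i y hy => ?_⟩
  ext r a
  have h1 := congrFun (h i y hy r) a
  rw [Matrix.smul_apply, Matrix.one_apply, smul_eq_mul]
  refine Eq.trans h1 ?_
  rw [Pi.smul_apply, Pi.single_apply, smul_eq_mul]
  congr 1
  by_cases hra : r = a
  · rw [if_pos hra, if_pos hra.symm]
  · rw [if_neg hra, if_neg fun h => hra h.symm]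

end Pool.Agent.Helper8.DV
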